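import Mathlib

namespace Pool.Agent.Results.MP_2d70c5_nt.Exists

open Finset

/-- `H d n`: the number of permutations of an `n`-element set all of whose cycles have length
`1` or `d` (`cycleType` lists the lengths of the cycles of length at least two). -/
noncomputable def H (d n : ℕ) : ℕ :=
  Nat.card {σ : Equiv.Perm (Fin n) // ∀ c ∈ σ.cycleType, c = d}

theorem H_eq (d n : ℕ) (h2 : 2 ≤ d) (h1 : d ≤ n) (h3 : n < 2 * d) :
    H d n = 1 + (d - 1).factorial * n.choose d := by
  classical
  have key : ∀ σ : Equiv.Perm (Fin n), (∀ c ∈ σ.cycleType, c = d) ↔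
      (σ = 1 ∨ σ.cycleType = {d}) := by
    intro σ
    constructor
    · intro h
      have hr : σ.cycleType = Multiset.replicate (Multiset.card σ.cycleType) d :=
        Multiset.eq_replicate.2 ⟨rfl, h⟩
      have hs : σ.cycleType.sum ≤ n := by
        simpa using σ.sum_cycleType_le
      generalize hk : Multiset.card σ.cycleType = k at hr
      rw [hr, Multiset.sum_replicate, smul_eq_mul] at hs
      have hk2 : k < 2 := by
        by_contra hge
        have : 2 * d ≤ k * d := Nat.mul_le_mul_right d (not_lt.1 hge)
        omega
      interval_cases k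
      · left
        exact Equiv.Perm.cycleType_eq_zero.1 (by simpa using hr)
      · right
        simpa using hr
    · rintro (rfl | h)
      · simp
      · intro c hc
        rw [h] at hc
        simpa using hc
  unfold H
  rw [Nat.card_eq_fintype_card, Fintype.card_subtype]
  have e : (univ.filter fun σ : Equiv.Perm (Fin n) => ∀ c ∈ σ.cycleType, c = d) =
      insert 1 (univ.filter fun σ : Equiv.Perm (Fin n) => σ.cycleType = {d}) := by
    ext σ
    simp only [mem_filter, mem_univ, true_and, mem_insert]
    exact key σ
  rw [e, card_insert_of_notMem (by simp)]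
  have := Equiv.Perm.card_of_cycleType_singleton (α := Fin n) h2 (by simpa using h1)
  rw [this, Fintype.card_fin, add_comm]

theorem result : ∃ a b n m : ℕ, 2 ≤ a ∧ a < b ∧ a ≤ n ∧ b ≤ m ∧ H a n = H b m := by
  refine ⟨42, 45, 49, 47, by norm_num, by norm_num, by norm_num, by norm_num, ?_⟩
  rw [H_eq 42 49 (by norm_num) (by norm_num) (by norm_num),
    H_eq 45 47 (by norm_num) (by norm_num) (by norm_num)]
  rw [Nat.choose_eq_factorial_div_factorial (by norm_num : 42 ≤ 49),
    Nat.choose_eq_factorial_div_factorial (by norm_num : 45 ≤ 47)]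
  decide +kernel

end Pool.Agent.Results.MP_2d70c5_nt.Exists
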